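import Pool.Agent.Y753.SHR.Stm3

set_option autoImplicit false

/-! Algebra of linear and quadratic forms. -/

namespace Pool.Agent.Q30.SHL

open MeasureTheory Filter Topology ProbabilityTheory
open Pool.Agent.Y753.SHL

variable {n : ℕ}

lemma lf_continuous (c : Fin n → ℝ) : Continuous fun y : Fin n → ℝ => lf c y := by
  unfold lf
  fun_prop

lemma lf_add (a b y : Fin n → ℝ) : lf (a + b) y = lf a y + lf b y := by
  unfold lf
  rw [← Finset.sum_add_distrib]
  exact Finset.sum_congr rfl fun j _ => by rw [Pi.add_apply]; ring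

lemma lf_smul (u : ℝ) (c y : Fin n → ℝ) : lf (u • c) y = u * lf c y := by
  unfold lf
  rw [Finset.mul_sum]
  exact Finset.sum_congr rfl fun j _ => by rw [Pi.smul_apply, smul_eq_mul]; ring

lemma lf_neg (c y : Fin n → ℝ) : lf (-c) y = -lf c y := by
  have := lf_smul (-1) c y
  rw [neg_one_smul] at this
  rw [this]; ring

lemma lf_sub (a b y : Fin n → ℝ) : lf (a - b) y = lf a y - lf b y := by
  rw [sub_eq_add_neg, lf_add, lf_neg]; ring

lemma lf_zero (y : Fin n → ℝ) : lf 0 y = 0 := by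
  unfold lf; simp

/-- the bilinear form -/
noncomputable def bl (C : Fin n → Fin n → ℝ) (a b : Fin n → ℝ) : ℝ := ∑ i, ∑ j, a i * b j * C i j

lemma bl_self (C : Fin n → Fin n → ℝ) (a : Fin n → ℝ) : bl C a a = qf C a := rfl

lemma bl_comm {C : Fin n → Fin n → ℝ} (hC : ∀ i j, C i j = C j i) (a b : Fin n → ℝ) : bl C a b = bl C b a := by
  unfold bl
  rw [Finset.sum_comm]
  exact Finset.sum_congr rfl fun i _ => Finset.sum_congr rfl fun j _ => by rw [hC j i]; ring

lemma bl_add_left (C : Fin n → Fin n → ℝ) (a a' b : Fin n → ℝ) : bl C (a + a') b = bl C a b + bl C a' b := by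
  unfold bl
  rw [← Finset.sum_add_distrib]
  refine Finset.sum_congr rfl fun i _ => ?_
  rw [← Finset.sum_add_distrib]
  exact Finset.sum_congr rfl fun j _ => by rw [Pi.add_apply]; ring

lemma bl_smul_left (C : Fin n → Fin n → ℝ) (u : ℝ) (a b : Fin n → ℝ) : bl C (u • a) b = u * bl C a b := by
  unfold bl
  rw [Finset.mul_sum]
  refine Finset.sum_congr rfl fun i _ => ?_
  rw [Finset.mul_sum]
  exact Finset.sum_congr rfl fun j _ => by rw [Pi.smul_apply, smul_eq_mul]; ring

lemma qf_add {C : Fin n → Fin n → ℝ} (hC : ∀ i j, C i j = C j i) (a b : Fin n → ℝ) :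
    qf C (a + b) = qf C a + 2 * bl C a b + qf C b := by
  rw [← bl_self, ← bl_self, ← bl_self, bl_add_left, bl_comm hC a (a + b), bl_comm hC b (a + b), bl_add_left,
    bl_add_left, bl_comm hC b a]
  ring

lemma qf_smul (C : Fin n → Fin n → ℝ) (u : ℝ) (a : Fin n → ℝ) : qf C (u • a) = u ^ 2 * qf C a := by
  unfold qf
  rw [Finset.mul_sum]
  refine Finset.sum_congr rfl fun i _ => ?_
  rw [Finset.mul_sum]
  exact Finset.sum_congr rfl fun j _ => by rw [Pi.smul_apply, Pi.smul_apply, smul_eq_mul, smul_eq_mul]; ring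

/-- the shifted mean -/
noncomputable def sh (m : Fin n → ℝ) (C : Fin n → Fin n → ℝ) (θ : Fin n → ℝ) : Fin n → ℝ :=
  fun i => m i + ∑ j, θ j * C i j

lemma lf_sh (m : Fin n → ℝ) (C : Fin n → Fin n → ℝ) (θ c : Fin n → ℝ) :
    lf c (sh m C θ) = lf c m + bl C c θ := by
  unfold lf sh bl
  rw [← Finset.sum_add_distrib]
  refine Finset.sum_congr rfl fun i _ => ?_
  rw [mul_add, Finset.mul_sum]
  congr 1
  exact Finset.sum_congr rfl fun j _ => by ring

/-- the exponent at a shifted point -/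
lemma expo_shift (m : Fin n → ℝ) {C : Fin n → Fin n → ℝ} (hC : ∀ i j, C i j = C j i) (θ η : Fin n → ℝ) :
    lf (θ + η) m + qf C (θ + η) / 2 = (lf θ m + qf C θ / 2) + (lf η (sh m C θ) + qf C η / 2) := by
  rw [lf_add, qf_add hC, lf_sh, bl_comm hC η θ]
  ring

lemma sum_lt {n : ℕ} {b : ℝ} (hb : 0 < b) {η : Fin n → ℝ} (h : ∀ j, |η j| < b / (4 * (n + 1))) :
    (∀ j, 0 < ((fun _ => b / (2 * (n + 1))) + η : Fin n → ℝ) j) ∧
      ∑ j, ((fun _ => b / (2 * (n + 1))) + η : Fin n → ℝ) j < b := by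
  have hn : (0 : ℝ) < n + 1 := by positivity
  have e1 : b / (2 * ((n : ℝ) + 1)) = 2 * (b / (4 * ((n : ℝ) + 1))) := by field_simp; ring
  have hpos : 0 < b / (4 * ((n : ℝ) + 1)) := by positivity
  refine ⟨fun j => ?_, ?_⟩
  · show 0 < b / (2 * ((n : ℝ) + 1)) + η j
    have := (abs_lt.1 (h j)).1
    linarith
  · have h1 : ∑ j, ((fun _ => b / (2 * ((n : ℝ) + 1))) + η : Fin n → ℝ) j ≤
        ∑ _j : Fin n, 3 * (b / (4 * ((n : ℝ) + 1))) := by
      refine Finset.sum_le_sum fun j _ => ?_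
      show b / (2 * ((n : ℝ) + 1)) + η j ≤ _
      have := (abs_lt.1 (h j)).2
      linarith
    refine h1.trans_lt ?_
    rw [Finset.sum_const, Finset.card_univ, Fintype.card_fin, nsmul_eq_mul]
    rw [show (n : ℝ) * (3 * (b / (4 * ((n : ℝ) + 1)))) = (3 / 4 * (n / (n + 1))) * b by field_simp]
    have h2 : (n : ℝ) / (n + 1) < 1 := by rw [div_lt_one hn]; linarith
    have h3 : 3 / 4 * ((n : ℝ) / (n + 1)) < 1 := by linarith
    calc _ < 1 * b := by gcongr
      _ = b := one_mul b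

end Pool.Agent.Q30.SHL
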