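import Pool.Agent.Q30.SHL.Key

set_option autoImplicit false

/-! Laplace transforms: rational points of the simplex suffice. -/

namespace Pool.Agent.Q30.SHL

open MeasureTheory Filter Topology ProbabilityTheory
open Pool.Agent.Y753.SHL

variable {n : ℕ}

lemma near {b : ℝ} (hb : 0 < b) {x : Fin n → ℝ} (hx : ∀ j, 0 < x j) (hs : ∑ j, x j < b) {ε : ℝ} (hε : 0 < ε) :
    ∃ l u : Fin n → ℚ, (∀ j, 0 < l j) ∧ (∀ j, b * l j < x j) ∧ (∀ j, x j < b * u j) ∧
      (∀ j, x j - b * l j < ε) ∧ (∀ j, b * u j - x j < ε) ∧ ∑ j, (u j : ℝ) < 1 := by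
  set G : ℝ := (b - ∑ j, x j) / b with hG
  have hG0 : 0 < G := div_pos (by linarith) hb
  have hn : (0 : ℝ) < n + 1 := by positivity
  have h1 : ∀ j, ∃ q : ℚ, max 0 (x j / b - ε / b) < q ∧ (q : ℝ) < x j / b := fun j =>
    exists_rat_btwn (max_lt (div_pos (hx j) hb) (by have := div_pos hε hb; linarith))
  have h2 : ∀ j, ∃ q : ℚ, x j / b < q ∧ (q : ℝ) < x j / b + min (ε / b) (G / (n + 1)) := fun j =>
    exists_rat_btwn (by have := lt_min (div_pos hε hb) (div_pos hG0 hn); linarith)
  choose l hl1 hl2 using h1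
  choose u hu1 hu2 using h2
  refine ⟨l, u, fun j => ?_, fun j => ?_, fun j => ?_, fun j => ?_, fun j => ?_, ?_⟩
  · have := (le_max_left _ _).trans_lt (hl1 j)
    exact_mod_cast this
  · have := hl2 j
    rw [lt_div_iff₀ hb] at this
    linarith
  · have := hu1 j
    rw [div_lt_iff₀ hb] at this
    linarith
  · have h3 := (le_max_right _ _).trans_lt (hl1 j)
    rw [← sub_div, div_lt_iff₀ hb] at h3
    linarith
  · have h3 := (hu2 j).trans_le (add_le_add_right (min_le_left _ _) _)
    rw [← add_div, lt_div_iff₀ hb] at h3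
    linarith
  · have h3 : ∑ j, (u j : ℝ) ≤ ∑ j, (x j / b + G / (n + 1)) := by
      refine Finset.sum_le_sum fun j _ => ?_
      have := hu2 j
      have h4 := min_le_right (ε / b) (G / ((n : ℝ) + 1))
      linarith
    refine h3.trans_lt ?_
    rw [Finset.sum_add_distrib, ← Finset.sum_div, Finset.sum_const, Finset.card_univ, Fintype.card_fin, nsmul_eq_mul]
    have h4 : (n : ℝ) * (G / (n + 1)) < G := by
      rw [mul_div_assoc', div_lt_iff₀ hn]
      nlinarith
    have h5 : (∑ j, x j) / b + G = 1 := by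
      rw [hG, ← add_div]
      rw [show ∑ j, x j + (b - ∑ j, x j) = b by ring]
      exact div_self hb.ne'
    linarith

/-- the limit -/
noncomputable def LL (m : Fin n → ℝ) (C : Fin n → Fin n → ℝ) (x : Fin n → ℝ) : ℝ := Real.exp (lf x m + qf C x / 2)

lemma LL_cont (m : Fin n → ℝ) (C : Fin n → Fin n → ℝ) : Continuous (LL m C) := by
  unfold LL lf qf
  fun_prop

/-- convexity on a box -/
lemma box_le {x : Fin n → ℝ} {a c : Fin n → ℝ} (ha : ∀ j, a j < x j) (hc : ∀ j, x j < c j) :
    ∃ w : Finset (Fin n) → ℝ, (∀ s, 0 ≤ w s) ∧ ∑ s ∈ Finset.univ.powerset, w s = 1 ∧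
      ∀ y, ec x y ≤ ∑ s ∈ (Finset.univ : Finset (Fin n)).powerset, w s * ec (fun j => if j ∈ s then c j else a j) y := by
  classical
  set lam : Fin n → ℝ := fun j => (x j - a j) / (c j - a j) with hlam
  have hd : ∀ j, 0 < c j - a j := fun j => by linarith [ha j, hc j]
  have h0 : ∀ j, 0 ≤ lam j := fun j => div_nonneg (by linarith [ha j]) (hd j).le
  have h1 : ∀ j, lam j ≤ 1 := fun j => (div_le_one (hd j)).2 (by linarith [hc j])
  have hx : ∀ j, lam j * c j + (1 - lam j) * a j = x j := fun j => by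
    have := (hd j).ne'
    simp only [hlam]
    field_simp
    ring
  refine ⟨fun s => (∏ j ∈ s, lam j) * ∏ j ∈ Finset.univ \ s, (1 - lam j), fun s => ?_, ?_, fun y => ?_⟩
  · exact mul_nonneg (Finset.prod_nonneg fun j _ => h0 j) (Finset.prod_nonneg fun j _ => by linarith [h1 j])
  · rw [← Finset.prod_add]
    exact Finset.prod_eq_one fun j _ => by ring
  · have e1 : ec x y = ∏ j, Real.exp (x j * y j) := by
      rw [ec_apply]; unfold lf; rw [Real.exp_sum]
    rw [e1]
    calc ∏ j, Real.exp (x j * y j) ≤ ∏ j, (lam j * Real.exp (c j * y j) + (1 - lam j) * Real.exp (a j * y j)) := by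
          refine Finset.prod_le_prod (fun j _ => (Real.exp_pos _).le) fun j _ => ?_
          have h2 := convexOn_exp.2 (Set.mem_univ (c j * y j)) (Set.mem_univ (a j * y j)) (h0 j)
            (by linarith [h1 j] : 0 ≤ 1 - lam j) (by ring)
          simp only [smul_eq_mul] at h2
          have e3 : x j * y j = lam j * (c j * y j) + (1 - lam j) * (a j * y j) := by
            have h3 := hx j
            calc x j * y j = (lam j * c j + (1 - lam j) * a j) * y j := by rw [h3]
              _ = _ := by ring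
          rw [e3]
          exact h2
      _ = _ := by
          rw [Finset.prod_add]
          refine Finset.sum_congr rfl fun s _ => ?_
          rw [Finset.prod_mul_distrib, Finset.prod_mul_distrib]
          have e2 : ec (fun j => if j ∈ s then c j else a j) y =
              (∏ j ∈ s, Real.exp (c j * y j)) * ∏ j ∈ Finset.univ \ s, Real.exp (a j * y j) := by
            rw [ec_apply]
            unfold lf
            rw [Real.exp_sum, ← Finset.prod_sdiff (Finset.subset_univ s), mul_comm]
            congr 1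
            · refine Finset.prod_congr rfl fun j hj => ?_
              show Real.exp ((if j ∈ s then c j else a j) * y j) = _
              rw [if_pos hj]
            · refine Finset.prod_congr rfl fun j hj => ?_
              show Real.exp ((if j ∈ s then c j else a j) * y j) = _
              rw [if_neg (Finset.mem_sdiff.1 hj).2]
          rw [e2]
          ring

section
variable {μ : ℝ → ProbabilityMeasure (Fin n → ℝ)} {m : Fin n → ℝ} {C : Fin n → Fin n → ℝ} {b : ℝ}

/-- the upper bound -/
lemma up (hb : 0 < b) (hq : ∀ q : Fin n → ℚ, (∀ j, 0 < q j) → ∑ j, (q j : ℝ) < 1 → Lap μ m C (fun j => b * q j))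
    {x : Fin n → ℝ} (hx : ∀ j, 0 < x j) (hs : ∑ j, x j < b) {τ : ℝ} (hτ : 0 < τ) :
    ∀ᶠ T in atTop, Integrable (ec x) (μ T : Measure (Fin n → ℝ)) ∧
      ∫ y, ec x y ∂(μ T : Measure (Fin n → ℝ)) ≤ LL m C x + τ := by
  classical
  obtain ⟨ε, hε, hcont⟩ := Metric.continuous_iff.1 (LL_cont m C) x (τ / 2) (by positivity)
  obtain ⟨l, u, h1, h2, h3, h4, h5, h6⟩ := near hb hx hs hε
  obtain ⟨w, hw0, hw1, hw⟩ := box_le (x := x) (a := fun j => b * l j) (c := fun j => b * u j) h2 h3
  have hcor : ∀ s : Finset (Fin n), Lap μ m C (fun j => if j ∈ s then b * (u j : ℝ) else b * l j) ∧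
      LL m C (fun j => if j ∈ s then b * (u j : ℝ) else b * l j) < LL m C x + τ / 2 := by
    intro s
    have hlu : ∀ j, l j < u j := fun j => by
      have h7 : b * (l j : ℝ) < b * u j := (h2 j).trans (h3 j)
      have h8 := lt_of_mul_lt_mul_left h7 hb.le
      exact_mod_cast h8
    have e : (fun j => if j ∈ s then b * (u j : ℝ) else b * l j) =
        fun j => b * (((if j ∈ s then u j else l j : ℚ)) : ℝ) := by
      ext j; split_ifs <;> rfl
    refine ⟨?_, ?_⟩
    · rw [e]
      refine hq _ (fun j => ?_) ?_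
      · split_ifs
        · exact (h1 j).trans (hlu j)
        · exact h1 j
      · refine lt_of_le_of_lt (Finset.sum_le_sum fun j _ => ?_) h6
        split_ifs
        · exact le_rfl
        · exact_mod_cast (hlu j).le
    · have h7 := hcont (fun j => if j ∈ s then b * (u j : ℝ) else b * l j) (by
        rw [dist_pi_lt_iff hε]
        intro j
        rw [Real.dist_eq]
        split_ifs
        · rw [abs_of_pos (by linarith [h3 j])]; exact h5 j
        · rw [abs_of_neg (by linarith [h2 j])]; linarith [h4 j])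
      rw [Real.dist_eq] at h7
      linarith [(abs_lt.1 h7).2]
  have hev : ∀ᶠ T in atTop, ∀ s ∈ (Finset.univ : Finset (Fin n)).powerset,
      Integrable (ec (fun j => if j ∈ s then b * (u j : ℝ) else b * l j)) (μ T : Measure (Fin n → ℝ)) ∧
      ∫ y, ec (fun j => if j ∈ s then b * (u j : ℝ) else b * l j) y ∂(μ T : Measure (Fin n → ℝ)) ≤ LL m C x + τ := by
    rw [Filter.eventually_all_finset]
    intro s _
    obtain ⟨⟨a1, a2⟩, a3⟩ := hcor s
    have a4 : LL m C (fun j => if j ∈ s then b * (u j : ℝ) else b * l j) < LL m C x + τ := by linarith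
    filter_upwards [a1, a2.eventually (gt_mem_nhds a4)] with T b1 b2
    exact ⟨b1, b2.le⟩
  filter_upwards [hev] with T hT
  have hI : Integrable (fun y => ∑ s ∈ (Finset.univ : Finset (Fin n)).powerset,
      w s * ec (fun j => if j ∈ s then b * (u j : ℝ) else b * l j) y) (μ T : Measure (Fin n → ℝ)) :=
    integrable_finsetSum _ fun s hs' => (hT s hs').1.const_mul _
  have hi : Integrable (ec x) (μ T : Measure (Fin n → ℝ)) := hI.mono' (ec x).continuous.aestronglyMeasurable
    (Eventually.of_forall fun y => by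
      rw [Real.norm_eq_abs, ec_apply, abs_of_pos (Real.exp_pos _), ← ec_apply]; exact hw y)
  refine ⟨hi, (integral_mono hi hI hw).trans ?_⟩
  have hI2 : ∀ s ∈ (Finset.univ : Finset (Fin n)).powerset, Integrable (fun y => w s *
      ec (fun j => if j ∈ s then b * (u j : ℝ) else b * l j) y) (μ T : Measure (Fin n → ℝ)) :=
    fun s hs' => (hT s hs').1.const_mul _
  rw [integral_finsetSum _ hI2]
  calc _ ≤ ∑ s ∈ (Finset.univ : Finset (Fin n)).powerset, w s * (LL m C x + τ) := by
        refine Finset.sum_le_sum fun s hs' => ?_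
        rw [integral_const_mul]
        exact mul_le_mul_of_nonneg_left (hT s hs').2 (hw0 s)
    _ = LL m C x + τ := by rw [← Finset.sum_mul, hw1, one_mul]

end

/-- job SHL-DENSE -/
theorem dense : S_DENSE := by
  intro n μ m C b hb hq x hx hs
  refine ⟨?_, ?_⟩
  · filter_upwards [up hb hq hx hs one_pos] with T hT
    exact hT.1
  show Tendsto _ atTop (𝓝 (LL m C x))
  rw [Metric.tendsto_nhds]
  intro τ' hτ'
  set τ : ℝ := τ' / 7 with hτd
  have hτ : 0 < τ := by positivity
  obtain ⟨ε, hε, hcont⟩ := Metric.continuous_iff.1 (LL_cont m C) x τ hτ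
  -- room in the simplex
  obtain ⟨l, u, h1, h2, h3, h4, h5, h6⟩ := near hb hx hs hε
  -- the reflected point
  have hrefl : ∀ j, x j < 2 * (b * (u j : ℝ)) - x j := fun j => by linarith [h3 j]
  have hlu : ∀ j, 0 < u j := fun j => by
    have h7 : b * (l j : ℝ) < b * u j := (h2 j).trans (h3 j)
    have h8 := lt_of_mul_lt_mul_left h7 hb.le
    have h9 : l j < u j := by exact_mod_cast h8
    exact (h1 j).trans h9
  -- a second, finer approximation from below
  set η : ℝ := Finset.univ.inf' (Finset.univ_nonempty (α := Option (Fin n))) (fun o => o.elim (ε / 2) fun j => min (ε / 2) (x j / 2)) with hη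
  have hη0 : 0 < η := by
    rw [hη, Finset.lt_inf'_iff]
    intro o _
    cases o with
    | none => exact half_pos hε
    | some j => exact lt_min (half_pos hε) (half_pos (hx j))
  have hηe : η ≤ ε / 2 := Finset.inf'_le _ (Finset.mem_univ (none : Option (Fin n)))
  have hηj : ∀ j, η ≤ x j / 2 := fun j =>
    (Finset.inf'_le _ (Finset.mem_univ (some j : Option (Fin n)))).trans (min_le_right _ _)
  obtain ⟨l', u', k1, k2, k3, k4, k5, k6⟩ := near hb hx hs hη0
  set p : Fin n → ℝ := fun j => b * (l' j : ℝ) with hp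
  set z : Fin n → ℝ := fun j => 2 * p j - x j with hz
  have hz0 : ∀ j, 0 < z j := fun j => by
    show 0 < 2 * (b * (l' j : ℝ)) - x j
    linarith [k4 j, hηj j]
  have hzx : ∀ j, z j < x j := fun j => by
    show 2 * (b * (l' j : ℝ)) - x j < x j
    linarith [k2 j]
  have hzs : ∑ j, z j < b := lt_of_le_of_lt (Finset.sum_le_sum fun j _ => (hzx j).le) hs
  have hdz : |LL m C z - LL m C x| < τ := by
    rw [← Real.dist_eq]
    refine hcont z ?_
    rw [dist_pi_lt_iff hε]
    intro j
    rw [Real.dist_eq, abs_of_neg (by linarith [hzx j])]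
    show -(2 * (b * (l' j : ℝ)) - x j - x j) < ε
    linarith [k4 j]
  have hdp : |LL m C p - LL m C x| < τ := by
    rw [← Real.dist_eq]
    refine hcont p ?_
    rw [dist_pi_lt_iff hε]
    intro j
    rw [Real.dist_eq, abs_of_neg (by
      show b * (l' j : ℝ) - x j < 0
      linarith [k2 j])]
    show -(b * (l' j : ℝ) - x j) < ε
    linarith [k4 j]
  have hlu' : ∀ j, l' j < u' j := fun j => by
    have h7 : b * (l' j : ℝ) < b * u' j := (k2 j).trans (k3 j)
    have h8 := lt_of_mul_lt_mul_left h7 hb.le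
    exact_mod_cast h8
  obtain ⟨c1, c2⟩ := hq l' k1 (lt_of_le_of_lt (Finset.sum_le_sum fun j _ => by exact_mod_cast (hlu' j).le) k6)
  have c3 : ∀ᶠ T in atTop, LL m C p - τ < ∫ y, ec p y ∂(μ T : Measure (Fin n → ℝ)) :=
    c2.eventually (lt_mem_nhds (by
      show LL m C p - τ < LL m C p
      linarith))
  filter_upwards [up hb hq hx hs hτ, up hb hq hz0 hzs hτ, c1, c3] with T a1 a2 a3 a4
  have hmid : ∀ y, ec p y ≤ (ec x y + ec z y) / 2 := fun y => by
    have e : lf p y = (lf x y + lf z y) / 2 := by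
      unfold lf
      rw [← Finset.sum_add_distrib, Finset.sum_div]
      refine Finset.sum_congr rfl fun j _ => ?_
      show p j * y j = (x j * y j + (2 * p j - x j) * y j) / 2
      ring
    rw [ec_apply, ec_apply, ec_apply, e]
    have e1 : Real.exp ((lf x y + lf z y) / 2) ^ 2 = Real.exp (lf x y) * Real.exp (lf z y) := by
      rw [← Real.exp_nat_mul, ← Real.exp_add]; congr 1; push_cast; ring
    have e2 := Real.exp_pos ((lf x y + lf z y) / 2)
    nlinarith [Real.exp_pos (lf x y), Real.exp_pos (lf z y), sq_nonneg (Real.exp (lf x y) - Real.exp (lf z y)),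
      sq_nonneg (Real.exp (lf x y) + Real.exp (lf z y) - 2 * Real.exp ((lf x y + lf z y) / 2)),
      sq_nonneg (Real.exp (lf x y) + Real.exp (lf z y) + 2 * Real.exp ((lf x y + lf z y) / 2))]
  have a5 : ∫ y, ec p y ∂(μ T : Measure (Fin n → ℝ)) ≤
      (∫ y, ec x y ∂(μ T : Measure (Fin n → ℝ)) + ∫ y, ec z y ∂(μ T : Measure (Fin n → ℝ))) / 2 := by
    rw [← integral_add a1.1 a2.1, ← integral_div]
    exact integral_mono a3 ((a1.1.add a2.1).div_const 2) hmid
  have d1 := abs_lt.1 hdz
  have d2 := abs_lt.1 hdp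
  rw [Real.dist_eq]
  show |∫ y, ec x y ∂(μ T : Measure (Fin n → ℝ)) - LL m C x| < τ'
  rw [abs_lt]
  constructor
  · linarith [a1.2, a2.2, d1.1, d1.2, d2.1, d2.2]
  · linarith [a1.2]

end Pool.Agent.Q30.SHL
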