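import Mathlib

set_option autoImplicit false

/-! Weak convergence and unbounded test functions. -/

namespace Pool.Agent.Q30.SHL

open MeasureTheory Filter Topology ProbabilityTheory BoundedContinuousFunction

variable {E : Type*} [TopologicalSpace E] [MeasurableSpace E] [OpensMeasurableSpace E]

/-- truncation -/
noncomputable def tr (f : C(E, ℝ)) (K : ℝ) (hK : 0 ≤ K) : BoundedContinuousFunction E ℝ :=
  BoundedContinuousFunction.ofNormedAddCommGroup (fun x => max (-K) (min (f x) K))
    (by fun_prop) K (fun x => by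
      rw [Real.norm_eq_abs, abs_le]
      exact ⟨le_max_left _ _, max_le (by linarith) (min_le_right _ _)⟩)

omit [MeasurableSpace E] [OpensMeasurableSpace E] in
lemma tr_apply (f : C(E, ℝ)) (K : ℝ) (hK : 0 ≤ K) (x : E) : tr f K hK x = max (-K) (min (f x) K) := rfl

omit [MeasurableSpace E] [OpensMeasurableSpace E] in
lemma tr_abs (f : C(E, ℝ)) (K : ℝ) (hK : 0 ≤ K) (x : E) : |tr f K hK x| ≤ |f x| := by
  rw [tr_apply]
  rcases le_total 0 (f x) with h | h
  · rw [max_eq_right (le_trans (by linarith) (le_min h hK)), abs_of_nonneg (le_min h hK), abs_of_nonneg h]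
    exact min_le_left _ _
  · rw [min_eq_left (h.trans hK), abs_of_nonpos (max_le (by linarith) h), abs_of_nonpos h]
    have := le_max_right (-K) (f x)
    linarith

omit [MeasurableSpace E] [OpensMeasurableSpace E] in
/-- the error of the truncation, for a dominating function -/
lemma tr_err {f g : C(E, ℝ)} {C : ℝ} (hC : 0 ≤ C) (hg : ∀ x, 0 ≤ g x) (h : ∀ x, |f x| ≤ C * g x) (K : ℝ)
    (hK : 0 ≤ K) (x : E) :
    |f x - tr f (C * K) (mul_nonneg hC hK) x| ≤ C * (g x - tr g K hK x) := by
  have e : tr g K hK x = min (g x) K := by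
    rw [tr_apply, max_eq_right (le_trans (by linarith) (le_min (hg x) hK))]
  rw [e, tr_apply]
  have h1 := h x
  have hCK := mul_nonneg hC hK
  rcases le_total (g x) K with h2 | h2
  · rw [min_eq_left h2, sub_self, mul_zero]
    have h3 : |f x| ≤ C * K := h1.trans (mul_le_mul_of_nonneg_left h2 hC)
    rw [min_eq_left (abs_le.1 h3).2, max_eq_right (abs_le.1 h3).1, sub_self, abs_zero]
  · rw [min_eq_right h2]
    have h3 : C * (g x - K) = C * g x - C * K := by ring
    have h4 : 0 ≤ C * (g x - K) := mul_nonneg hC (by linarith)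
    rcases abs_le.1 h1 with ⟨h5, h6⟩
    rcases le_total (f x) (C * K) with h7 | h7
    · rw [min_eq_left h7]
      rcases le_total (-(C * K)) (f x) with h8 | h8
      · rw [max_eq_right h8, sub_self, abs_zero]; exact h4
      · rw [max_eq_left h8, abs_of_nonpos (by linarith)]; linarith
    · rw [min_eq_right h7, max_eq_right (by linarith), abs_of_nonneg (by linarith)]; linarith

/-- the truncations converge -/
lemma tr_tendsto {ν : Measure E} [IsFiniteMeasure ν] {f : C(E, ℝ)} (hf : Integrable f ν) :
    Tendsto (fun K : ℕ => ∫ x, tr f K (Nat.cast_nonneg K) x ∂ν) atTop (𝓝 (∫ x, f x ∂ν)) := by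
  refine tendsto_integral_of_dominated_convergence (fun x => |f x|)
    (fun K => (tr f K (Nat.cast_nonneg K)).continuous.aestronglyMeasurable) hf.abs
    (fun K => Eventually.of_forall fun x => ?_) (Eventually.of_forall fun x => ?_)
  · rw [Real.norm_eq_abs]; exact tr_abs _ _ _ _
  · refine tendsto_const_nhds.congr' ?_
    obtain ⟨n, hn⟩ := exists_nat_gt |f x|
    filter_upwards [eventually_ge_atTop n] with K hK
    have h1 : |f x| ≤ K := hn.le.trans (by exact_mod_cast hK)
    rw [tr_apply, min_eq_left (abs_le.1 h1).2, max_eq_right (abs_le.1 h1).1]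

variable {ι : Type*} {l : Filter ι} {μ : ι → ProbabilityMeasure E} {ν : ProbabilityMeasure E}

/-- convergence of the integrals of a nonnegative function implies the convergence for dominated functions -/
theorem dom_conv (hw : Tendsto μ l (𝓝 ν)) {g : C(E, ℝ)} (hg : ∀ x, 0 ≤ g x)
    (hi : ∀ᶠ i in l, Integrable g (μ i : Measure E)) (hν : Integrable g (ν : Measure E))
    (hc : Tendsto (fun i => ∫ x, g x ∂(μ i : Measure E)) l (𝓝 (∫ x, g x ∂(ν : Measure E))))
    {f : C(E, ℝ)} {C : ℝ} (hC : 0 ≤ C) (h : ∀ x, |f x| ≤ C * g x) :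
    Tendsto (fun i => ∫ x, f x ∂(μ i : Measure E)) l (𝓝 (∫ x, f x ∂(ν : Measure E))) := by
  have hF := ProbabilityMeasure.tendsto_iff_forall_integral_tendsto.mp hw
  have hfi : ∀ m : Measure E, Integrable g m → Integrable f m := fun m hm =>
    (hm.const_mul C).mono' f.continuous.aestronglyMeasurable
      (Eventually.of_forall fun x => by rw [Real.norm_eq_abs]; exact h x)
  rw [Metric.tendsto_nhds]
  intro ε hε
  -- choose the truncation
  have h1 := (tendsto_const_nhds (x := ∫ x, g x ∂(ν : Measure E))).sub (tr_tendsto hν)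
  rw [sub_self] at h1
  have h2 : ∀ᶠ K : ℕ in atTop, C * (∫ x, g x ∂(ν : Measure E) - ∫ x, tr g K (Nat.cast_nonneg K) x ∂(ν : Measure E)) < ε / 4 := by
    have := h1.const_mul C
    rw [mul_zero] at this
    exact this.eventually (gt_mem_nhds (by positivity))
  obtain ⟨K, hK⟩ := h2.exists
  have hK0 : (0 : ℝ) ≤ K := Nat.cast_nonneg K
  have hdiff : ∀ m : Measure E, IsProbabilityMeasure m → Integrable g m →
      |∫ x, f x ∂m - ∫ x, tr f (C * K) (mul_nonneg hC hK0) x ∂m| ≤
        C * (∫ x, g x ∂m - ∫ x, tr g K hK0 x ∂m) := by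
    intro m hm hgm
    rw [← integral_sub (hfi m hgm) ((tr f (C * K) (mul_nonneg hC hK0)).integrable m),
      ← integral_sub hgm ((tr g K hK0).integrable m), ← integral_const_mul]
    refine (abs_integral_le_integral_abs).trans (integral_mono_of_nonneg
      (Eventually.of_forall fun x => abs_nonneg _) ((hgm.sub ((tr g K hK0).integrable m)).const_mul C)
      (Eventually.of_forall fun x => ?_))
    exact tr_err hC hg h K hK0 x
  have h3 := (hc.sub (hF (tr g K hK0))).const_mul C
  have h4 : ∀ᶠ i in l, C * (∫ x, g x ∂(μ i : Measure E) - ∫ x, tr g K hK0 x ∂(μ i : Measure E)) < ε / 4 :=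
    h3.eventually (gt_mem_nhds hK)
  have h5 := hF (tr f (C * K) (mul_nonneg hC hK0))
  have h6 := (Metric.tendsto_nhds.1 h5) (ε / 4) (by positivity)
  filter_upwards [hi, h4, h6] with i a1 a2 a3
  have b1 := hdiff (μ i : Measure E) inferInstance a1
  have b2 := hdiff (ν : Measure E) inferInstance hν
  rw [Real.dist_eq] at a3 ⊢
  have c1 := abs_lt.1 a3
  have c2 := abs_le.1 (b1.trans a2.le)
  have c3 := abs_le.1 (b2.trans hK.le)
  rw [abs_lt]
  constructor <;> linarith [c1.1, c1.2, c2.1, c2.2, c3.1, c3.2]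

/-- convergence of the integrals of a function with bounded second moments -/
theorem ui_conv [l.NeBot] (hw : Tendsto μ l (𝓝 ν)) {f : C(E, ℝ)} (hf : ∀ x, 0 ≤ f x)
    {M : ℝ} (hi : ∀ᶠ i in l, Integrable f (μ i : Measure E))
    (hM : ∀ᶠ i in l, Integrable (fun x => f x ^ 2) (μ i : Measure E) ∧ ∫ x, f x ^ 2 ∂(μ i : Measure E) ≤ M) :
    Integrable f (ν : Measure E) ∧
      Tendsto (fun i => ∫ x, f x ∂(μ i : Measure E)) l (𝓝 (∫ x, f x ∂(ν : Measure E))) := by
  have hF := ProbabilityMeasure.tendsto_iff_forall_integral_tendsto.mp hw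
  have hM0 : 0 ≤ M := by
    obtain ⟨i, h1, h2⟩ := hM.exists
    exact (integral_nonneg fun x => by positivity).trans h2
  have htr : ∀ (K : ℝ) (hK : 0 < K) (x : E), tr f K hK.le x = min (f x) K := fun K hK x => by
    rw [tr_apply, max_eq_right (le_trans (by linarith) (le_min (hf x) hK.le))]
  have hd : ∀ (K : ℝ) (hK : 0 < K), ∀ᶠ i in l,
      |∫ x, f x ∂(μ i : Measure E) - ∫ x, tr f K hK.le x ∂(μ i : Measure E)| ≤ M / K := by
    intro K hK
    filter_upwards [hi, hM] with i h1 h2
    rw [← integral_sub h1 ((tr f K hK.le).integrable _)]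
    have h3 : ∫ x, f x ^ 2 / K ∂(μ i : Measure E) ≤ M / K := by
      rw [integral_div]
      exact div_le_div_of_nonneg_right h2.2 hK.le
    refine (abs_integral_le_integral_abs).trans ((integral_mono_of_nonneg
      (Eventually.of_forall fun x => abs_nonneg _) (h2.1.div_const K) (Eventually.of_forall fun x => ?_)).trans h3)
    show |f x - tr f K hK.le x| ≤ f x ^ 2 / K
    rw [htr K hK]
    rcases le_total (f x) K with h4 | h4
    · rw [min_eq_left h4, sub_self, abs_zero]; positivity
    · rw [min_eq_right h4, abs_of_nonneg (by linarith), le_div_iff₀ hK]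
      nlinarith [hf x]
  -- boundedness of the truncated integrals
  have hb : ∀ (K : ℝ) (hK : 0 < K), ∫ x, tr f K hK.le x ∂(ν : Measure E) ≤ 1 + M := by
    intro K hK
    refine le_of_tendsto (hF (tr f K hK.le)) ?_
    filter_upwards [hM] with i h2
    calc ∫ x, tr f K hK.le x ∂(μ i : Measure E) ≤ ∫ x, (1 + f x ^ 2) ∂(μ i : Measure E) := by
          refine integral_mono ((tr f K hK.le).integrable _) ((integrable_const 1).add h2.1) fun x => ?_
          show tr f K hK.le x ≤ 1 + f x ^ 2
          rw [htr K hK]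
          refine (min_le_left _ _).trans ?_
          nlinarith [sq_nonneg (f x - 1), hf x]
      _ = 1 + ∫ x, f x ^ 2 ∂(μ i : Measure E) := by
          rw [integral_add (integrable_const 1) h2.1]
          simp
      _ ≤ 1 + M := by linarith [h2.2]
  have hint : Integrable f (ν : Measure E) := by
    refine ⟨f.continuous.aestronglyMeasurable, ?_⟩
    rw [hasFiniteIntegral_iff_norm]
    have h1 : ∀ x : E, ENNReal.ofReal ‖f x‖ = ⨆ n : ℕ, ENNReal.ofReal (tr f (n + 1) (by positivity) x) := by
      intro x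
      rw [Real.norm_of_nonneg (hf x)]
      apply le_antisymm
      · obtain ⟨n, hn⟩ := exists_nat_gt (f x)
        refine le_iSup_of_le n (ENNReal.ofReal_le_ofReal ?_)
        rw [htr (n + 1) (by positivity), min_eq_left (by linarith)]
      · refine iSup_le fun n => ENNReal.ofReal_le_ofReal ?_
        rw [htr (n + 1) (by positivity)]; exact min_le_left _ _
    simp_rw [h1]
    rw [lintegral_iSup]
    · refine lt_of_le_of_lt (iSup_le fun n => ?_) (ENNReal.ofReal_lt_top (r := 1 + M))
      rw [← ofReal_integral_eq_lintegral_ofReal ((tr f (n + 1) (by positivity)).integrable _)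
        (Eventually.of_forall fun x => by
          show 0 ≤ tr f (n + 1) (by positivity) x
          rw [htr (n + 1) (by positivity)]; exact le_min (hf x) (by positivity))]
      exact ENNReal.ofReal_le_ofReal (hb _ (by positivity))
    · intro n
      exact ENNReal.measurable_ofReal.comp (tr f (n + 1) (by positivity)).continuous.measurable
    · intro a b hab x
      refine ENNReal.ofReal_le_ofReal ?_
      rw [htr (a + 1) (by positivity), htr (b + 1) (by positivity)]
      refine min_le_min le_rfl ?_
      have : (a : ℝ) ≤ b := by exact_mod_cast hab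
      linarith
  refine ⟨hint, ?_⟩
  rw [Metric.tendsto_nhds]
  intro ε hε
  have h1 := tr_tendsto hint
  have h2 := (Metric.tendsto_nhds.1 h1) (ε / 3) (by positivity)
  have h3 : ∀ᶠ K : ℕ in atTop, M / (K : ℝ) < ε / 3 := by
    have : Tendsto (fun K : ℕ => M / (K : ℝ)) atTop (𝓝 0) := tendsto_const_div_atTop_nhds_zero_nat M
    exact this.eventually (gt_mem_nhds (by positivity))
  obtain ⟨K, hK1, hK2, hK3⟩ := (h2.and (h3.and (eventually_ge_atTop 1))).exists
  have hK0 : (0 : ℝ) < K := by exact_mod_cast (by omega : 0 < K)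
  have h4 := (Metric.tendsto_nhds.1 (hF (tr f K hK0.le))) (ε / 3) (by positivity)
  filter_upwards [hd K hK0, h4] with i a1 a2
  rw [Real.dist_eq] at hK1 a2 ⊢
  have c1 := abs_lt.1 hK1
  have c2 := abs_lt.1 a2
  have c3 := abs_le.1 (a1.trans hK2.le)
  rw [abs_lt]
  constructor <;> linarith [c1.1, c1.2, c2.1, c2.2, c3.1, c3.2]

end Pool.Agent.Q30.SHL
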