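import Pool.Agent.Q30.SHL.One
import Pool.Agent.Q30.SHL.Weak
import Pool.Agent.Q30.SHL.Alg

set_option autoImplicit false

/-! Laplace transforms in an open simplex with corner zero determine weak limits. -/

namespace Pool.Agent.Q30.SHL

open MeasureTheory Filter Topology ProbabilityTheory
open Pool.Agent.Y753.SHL

variable {n : ℕ}

/-- the exponential of a linear form -/
noncomputable def ec (c : Fin n → ℝ) : C(Fin n → ℝ, ℝ) := ⟨fun y => Real.exp (lf c y),
  Real.continuous_exp.comp (lf_continuous c)⟩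

lemma ec_apply (c y : Fin n → ℝ) : ec c y = Real.exp (lf c y) := rfl

/-- the unit vectors -/
noncomputable def eu (j : Fin n) : Fin n → ℝ := Pi.single j 1

lemma lf_eu (s : ℝ) (j : Fin n) (y : Fin n → ℝ) : lf (s • eu j) y = s * y j := by
  rw [lf_smul]
  unfold lf eu
  rw [Finset.sum_eq_single j]
  · simp
  · intro i _ hi
    simp [Pi.single_eq_of_ne hi]
  · intro h; exact absurd (Finset.mem_univ j) h

/-- the set of measures with bounded exponential moments -/
def BS (n : ℕ) (s M : ℝ) : Set (ProbabilityMeasure (Fin n → ℝ)) :=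
  {P | ∀ j : Fin n, Integrable (ec (s • eu j)) (P : Measure (Fin n → ℝ)) ∧
    Integrable (ec ((-s) • eu j)) (P : Measure (Fin n → ℝ)) ∧
    ∫ y, ec (s • eu j) y ∂(P : Measure (Fin n → ℝ)) ≤ M ∧ ∫ y, ec ((-s) • eu j) y ∂(P : Measure (Fin n → ℝ)) ≤ M}

theorem tight_BS {s M : ℝ} (hs : 0 < s) :
    IsTightMeasureSet {((P : ProbabilityMeasure (Fin n → ℝ)) : Measure (Fin n → ℝ)) | P ∈ BS n s M} := by
  rw [isTightMeasureSet_iff_exists_isCompact_measure_compl_le]
  intro ε hε
  obtain ⟨r, hr0, hr⟩ : ∃ r : ℝ, 0 ≤ r ∧ ENNReal.ofReal (2 * n * M * Real.exp (-(s * r))) ≤ ε := by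
    have h0 : Tendsto (fun r : ℝ => s * r) atTop atTop := tendsto_id.const_mul_atTop hs
    have h1 : Tendsto (fun r : ℝ => ENNReal.ofReal (2 * n * M * Real.exp (-(s * r)))) atTop
        (𝓝 (ENNReal.ofReal (2 * n * M * 0))) :=
      ENNReal.tendsto_ofReal ((Real.tendsto_exp_neg_atTop_nhds_zero.comp h0).const_mul _)
    rw [mul_zero, ENNReal.ofReal_zero] at h1
    obtain ⟨r, h2, h3⟩ := ((h1.eventually (gt_mem_nhds hε)).and (eventually_ge_atTop 0)).exists
    exact ⟨r, h3, h2.le⟩
  refine ⟨Metric.closedBall 0 r, isCompact_closedBall 0 r, ?_⟩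
  rintro _ ⟨P, hP, rfl⟩
  refine le_trans ?_ hr
  have hm : MeasurableSet (Metric.closedBall (0 : Fin n → ℝ) r)ᶜ := Metric.isClosed_closedBall.measurableSet.compl
  have hig : Integrable (fun y => ∑ j : Fin n, (ec (s • eu j) y + ec ((-s) • eu j) y) * Real.exp (-(s * r)))
      (P : Measure (Fin n → ℝ)) :=
    integrable_finsetSum _ fun j _ => ((hP j).1.add (hP j).2.1).mul_const _
  have h5 : (P : Measure (Fin n → ℝ)).real (Metric.closedBall 0 r)ᶜ ≤ 2 * n * M * Real.exp (-(s * r)) := by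
    rw [← integral_indicator_one hm]
    have h6 : ∫ x, (Metric.closedBall (0 : Fin n → ℝ) r)ᶜ.indicator 1 x ∂(P : Measure (Fin n → ℝ)) ≤
        ∫ y, ∑ j : Fin n, (ec (s • eu j) y + ec ((-s) • eu j) y) * Real.exp (-(s * r)) ∂(P : Measure (Fin n → ℝ)) := by
      refine integral_mono ((integrable_const (1:ℝ)).indicator hm) hig fun y => ?_
      have hnn : ∀ j : Fin n, 0 ≤ (ec (s • eu j) y + ec ((-s) • eu j) y) * Real.exp (-(s * r)) := fun j => by
        rw [ec_apply, ec_apply]; positivity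
      by_cases hy : y ∈ (Metric.closedBall (0 : Fin n → ℝ) r)ᶜ
      · rw [Set.indicator_of_mem hy]
        rw [Set.mem_compl_iff, Metric.mem_closedBall, dist_zero_right, pi_norm_le_iff_of_nonneg hr0] at hy
        push Not at hy
        obtain ⟨j, hj⟩ := hy
        refine le_trans ?_ (Finset.single_le_sum (fun i _ => hnn i) (Finset.mem_univ j))
        show (1 : ℝ) ≤ _
        rw [ec_apply, ec_apply, lf_eu, lf_eu, add_mul, ← Real.exp_add, ← Real.exp_add]
        rw [Real.norm_eq_abs] at hj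
        rcases le_or_gt 0 (y j) with h0 | h0
        · rw [abs_of_nonneg h0] at hj
          have h7 : 1 ≤ Real.exp (s * y j + -(s * r)) := by
            refine Real.one_le_exp ?_
            nlinarith
          have := Real.exp_pos (-s * y j + -(s * r))
          linarith
        · rw [abs_of_neg h0] at hj
          have h7 : 1 ≤ Real.exp (-s * y j + -(s * r)) := by
            refine Real.one_le_exp ?_
            nlinarith
          have := Real.exp_pos (s * y j + -(s * r))
          linarith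
      · rw [Set.indicator_of_notMem hy]
        exact Finset.sum_nonneg fun j _ => hnn j
    refine h6.trans ?_
    have hint : ∀ j ∈ (Finset.univ : Finset (Fin n)), Integrable (fun y : Fin n → ℝ =>
        (ec (s • eu j) y + ec ((-s) • eu j) y) * Real.exp (-(s * r))) (P : Measure (Fin n → ℝ)) :=
      fun j _ => ((hP j).1.add (hP j).2.1).mul_const _
    rw [integral_finsetSum _ hint]
    calc ∑ j : Fin n, ∫ y, (ec (s • eu j) y + ec ((-s) • eu j) y) * Real.exp (-(s * r)) ∂(P : Measure (Fin n → ℝ)) ≤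
        ∑ _j : Fin n, 2 * M * Real.exp (-(s * r)) := by
          refine Finset.sum_le_sum fun j _ => ?_
          rw [integral_mul_const, integral_add (hP j).1 (hP j).2.1]
          have h1 := (hP j).2.2.1
          have h2 := (hP j).2.2.2
          exact mul_le_mul_of_nonneg_right (by linarith) (Real.exp_pos _).le
      _ = 2 * n * M * Real.exp (-(s * r)) := by
          rw [Finset.sum_const, Finset.card_univ, Fintype.card_fin, nsmul_eq_mul]; ring
  rw [measureReal_def] at h5
  exact ENNReal.le_ofReal_iff_toReal_le (measure_ne_top _ _) (le_trans ENNReal.toReal_nonneg h5) |>.mpr h5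

/-- subsequential limits -/
theorem limit_exists {ν : ℝ → ProbabilityMeasure (Fin n → ℝ)} {g : Ultrafilter ℝ} {s M : ℝ} (hs : 0 < s)
    (h : ∀ᶠ T in (g : Filter ℝ), ν T ∈ BS n s M) : ∃ ρ, Tendsto ν g (𝓝 ρ) := by
  have hcomp : IsCompact (closure (BS n s M)) := isCompact_closure_of_isTightMeasureSet (tight_BS hs)
  obtain ⟨ρ, -, hρ⟩ := isCompact_iff_ultrafilter_le_nhds.mp hcomp (g.map ν) (by
    rw [Ultrafilter.coe_map, le_principal_iff, mem_map]
    filter_upwards [h] with i hi
    exact subset_closure hi)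
  exact ⟨ρ, hρ⟩

/-- limits of measures whose Laplace transforms converge near zero -/
theorem ball_limit {ν : ℝ → ProbabilityMeasure (Fin n → ℝ)} {g : Ultrafilter ℝ} {m : Fin n → ℝ}
    {C : Fin n → Fin n → ℝ} {r : ℝ} (hr : 0 < r)
    (h : ∀ η : Fin n → ℝ, (∀ j, |η j| < r) →
      (∀ᶠ T in (g : Filter ℝ), Integrable (ec η) (ν T : Measure (Fin n → ℝ))) ∧
      Tendsto (fun T => ∫ y, ec η y ∂(ν T : Measure (Fin n → ℝ))) g (𝓝 (Real.exp (lf η m + qf C η / 2)))) :
    ∃ ρ, Tendsto ν g (𝓝 ρ) ∧ Nor m C ρ := by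
  classical
  -- tightness
  have hr2 : 0 < r / 2 := by linarith
  have hsm : ∀ (s : ℝ), |s| ≤ r / 2 → ∀ j i : Fin n, |(s • eu j : Fin n → ℝ) i| < r := by
    intro s hs j i
    have e : (s • eu j : Fin n → ℝ) i = s * (eu j i) := rfl
    rw [e, abs_mul]
    have h1 : |(eu j i : ℝ)| ≤ 1 := by
      unfold eu
      by_cases hij : i = j
      · subst hij; simp
      · rw [Pi.single_eq_of_ne hij]; simp
    calc |s| * |(eu j i : ℝ)| ≤ r / 2 * 1 := by gcongr
      _ < r := by linarith
  set K : ℝ := ∑ j : Fin n, (Real.exp (lf ((r / 2) • eu j) m + qf C ((r / 2) • eu j) / 2) +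
    Real.exp (lf ((-(r / 2)) • eu j) m + qf C ((-(r / 2)) • eu j) / 2)) + 1 with hK
  have hKb : ∀ j : Fin n, Real.exp (lf ((r / 2) • eu j) m + qf C ((r / 2) • eu j) / 2) +
      Real.exp (lf ((-(r / 2)) • eu j) m + qf C ((-(r / 2)) • eu j) / 2) < K := by
    intro j
    have h1 : Real.exp (lf ((r / 2) • eu j) m + qf C ((r / 2) • eu j) / 2) +
      Real.exp (lf ((-(r / 2)) • eu j) m + qf C ((-(r / 2)) • eu j) / 2) ≤ ∑ j : Fin n,
      (Real.exp (lf ((r / 2) • eu j) m + qf C ((r / 2) • eu j) / 2) +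
      Real.exp (lf ((-(r / 2)) • eu j) m + qf C ((-(r / 2)) • eu j) / 2)) :=
      Finset.single_le_sum (s := Finset.univ) (f := fun j : Fin n =>
      (Real.exp (lf ((r / 2) • eu j) m + qf C ((r / 2) • eu j) / 2) +
      Real.exp (lf ((-(r / 2)) • eu j) m + qf C ((-(r / 2)) • eu j) / 2))) (fun i _ => by positivity) (Finset.mem_univ j)
    linarith
  have hBS : ∀ᶠ T in (g : Filter ℝ), ν T ∈ BS n (r / 2) K := by
    have h1 : ∀ j : Fin n, ∀ᶠ T in (g : Filter ℝ), Integrable (ec ((r / 2) • eu j)) (ν T : Measure (Fin n → ℝ)) ∧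
        Integrable (ec ((-(r / 2)) • eu j)) (ν T : Measure (Fin n → ℝ)) ∧
        ∫ y, ec ((r / 2) • eu j) y ∂(ν T : Measure (Fin n → ℝ)) ≤ K ∧
        ∫ y, ec ((-(r / 2)) • eu j) y ∂(ν T : Measure (Fin n → ℝ)) ≤ K := by
      intro j
      obtain ⟨a1, a2⟩ := h ((r / 2) • eu j) (hsm _ (by rw [abs_of_pos hr2]) j)
      obtain ⟨b1, b2⟩ := h ((-(r / 2)) • eu j) (hsm _ (by rw [abs_neg, abs_of_pos hr2]) j)
      have e1 := hKb j
      have e2 := Real.exp_pos (lf ((r / 2) • eu j) m + qf C ((r / 2) • eu j) / 2)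
      have e3 := Real.exp_pos (lf ((-(r / 2)) • eu j) m + qf C ((-(r / 2)) • eu j) / 2)
      filter_upwards [a1, b1, a2.eventually (gt_mem_nhds (by linarith : _ < K)),
        b2.eventually (gt_mem_nhds (by linarith : _ < K))] with T c1 c2 c3 c4
      exact ⟨c1, c2, c3.le, c4.le⟩
    exact (eventually_all.2 h1).mono fun T hT j => hT j
  obtain ⟨ρ, hρ⟩ := limit_exists hr2 hBS
  refine ⟨ρ, hρ, ?_⟩
  -- the Laplace transform of the limit
  have hlap : ∀ η : Fin n → ℝ, (∀ j, |η j| < r / 2) → Integrable (ec η) (ρ : Measure (Fin n → ℝ)) ∧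
      ∫ y, ec η y ∂(ρ : Measure (Fin n → ℝ)) = Real.exp (lf η m + qf C η / 2) := by
    intro η hη
    obtain ⟨a1, a2⟩ := h η fun j => (hη j).trans (by linarith)
    obtain ⟨b1, b2⟩ := h ((2 : ℝ) • η) fun j => by
      rw [Pi.smul_apply, smul_eq_mul, abs_mul, abs_of_pos (by norm_num : (0 : ℝ) < 2)]
      linarith [hη j]
    have hsq : ∀ y, (ec η y) ^ 2 = ec ((2 : ℝ) • η) y := fun y => by
      rw [ec_apply, ec_apply, lf_smul, ← Real.exp_nat_mul]; norm_num
    obtain ⟨c1, c2⟩ := ui_conv (f := ec η) (M := Real.exp (lf ((2 : ℝ) • η) m + qf C ((2 : ℝ) • η) / 2) + 1) hρ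
      (fun y => (Real.exp_pos _).le) a1 (by
        simp_rw [hsq]
        filter_upwards [b1, b2.eventually (gt_mem_nhds (by linarith :
          Real.exp (lf ((2 : ℝ) • η) m + qf C ((2 : ℝ) • η) / 2) <
          Real.exp (lf ((2 : ℝ) • η) m + qf C ((2 : ℝ) • η) / 2) + 1))] with T d1 d2
        exact ⟨d1, d2.le⟩)
    exact ⟨c1, tendsto_nhds_unique c2 a2⟩
  -- the projections
  intro c
  have hlm : Measurable (lf c) := (lf_continuous c).measurable
  have hpr : IsProbabilityMeasure ((ρ : Measure (Fin n → ℝ)).map (lf c)) :=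
    Measure.isProbabilityMeasure_map hlm.aemeasurable
  set R : ℝ := (r / 2) / (‖c‖ + 1) with hR
  have hR0 : 0 < R := by positivity
  have hsmall : ∀ u : ℝ, |u| < R → ∀ j, |(u • c) j| < r / 2 := by
    intro u hu j
    rw [Pi.smul_apply, smul_eq_mul, abs_mul]
    have h1 : |c j| ≤ ‖c‖ := by
      rw [← Real.norm_eq_abs]; exact norm_le_pi_norm c j
    calc |u| * |c j| ≤ |u| * (‖c‖ + 1) := by gcongr; linarith
      _ < R * (‖c‖ + 1) := by gcongr
      _ = r / 2 := by rw [hR]; field_simp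
  have key := gauss_unique (ν := (ρ : Measure (Fin n → ℝ)).map (lf c)) (a := lf c m) (q := qf C c) hR0
    (fun u hu => by
      rw [integrable_map_measure (by fun_prop) hlm.aemeasurable]
      refine (hlap (u • c) (hsmall u hu)).1.congr (Eventually.of_forall fun y => ?_)
      show ec (u • c) y = Real.exp (u * lf c y)
      rw [ec_apply, lf_smul])
    (fun u hu => by
      rw [integral_map hlm.aemeasurable (by fun_prop)]
      have h1 := (hlap (u • c) (hsmall u hu)).2
      rw [lf_smul, qf_smul] at h1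
      rw [← h1]
      refine integral_congr_ae (Eventually.of_forall fun y => ?_)
      show Real.exp (u * lf c y) = ec (u • c) y
      rw [ec_apply, lf_smul])
  exact key

/-- the Laplace transform of a normal law -/
theorem nor_lap {m : Fin n → ℝ} {C : Fin n → Fin n → ℝ} {ρ : ProbabilityMeasure (Fin n → ℝ)} (h : Nor m C ρ)
    (η : Fin n → ℝ) : Integrable (ec η) (ρ : Measure (Fin n → ℝ)) ∧
      ∫ y, ec η y ∂(ρ : Measure (Fin n → ℝ)) = Real.exp (lf η m + qf C η / 2) := by
  obtain ⟨h0, h1⟩ := h η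
  have hlm : Measurable (lf η) := (lf_continuous η).measurable
  have h2 : Integrable (fun x : ℝ => Real.exp (1 * x)) (gaussianReal (lf η m) (qf C η).toNNReal) :=
    integrable_exp_mul_gaussianReal 1
  have h3 := congrFun (mgf_id_gaussianReal (μ := lf η m) (v := (qf C η).toNNReal)) 1
  unfold mgf at h3
  simp only [id, one_mul, one_pow, mul_one] at h2 h3
  rw [← h1] at h2 h3
  rw [integrable_map_measure (by fun_prop) hlm.aemeasurable] at h2
  rw [integral_map hlm.aemeasurable (by fun_prop), Real.coe_toNNReal _ h0] at h3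
  exact ⟨h2, h3⟩

/-- normal laws are unique -/
theorem nor_unique {m : Fin n → ℝ} {C : Fin n → Fin n → ℝ} {ρ ρ' : ProbabilityMeasure (Fin n → ℝ)} (h : Nor m C ρ)
    (h' : Nor m C ρ') : ρ = ρ' := by
  apply Subtype.ext
  show (ρ : Measure (Fin n → ℝ)) = (ρ' : Measure (Fin n → ℝ))
  refine Measure.ext_of_charFunDual ?_
  ext L
  rw [charFunDual_eq_charFun_map_one, charFunDual_eq_charFun_map_one]
  have e : (fun y : Fin n → ℝ => L y) = lf (fun j => L (eu j)) := by
    ext y
    have hy : y = ∑ j, y j • eu j := by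
      ext i
      rw [Finset.sum_apply, Finset.sum_eq_single i]
      · simp [eu]
      · intro j _ hj
        simp [eu, Pi.single_eq_of_ne hj.symm]
      · intro hi; exact absurd (Finset.mem_univ i) hi
    unfold lf
    conv_lhs => rw [hy]
    rw [map_sum]
    refine Finset.sum_congr rfl fun j _ => ?_
    rw [map_smul, smul_eq_mul, mul_comm]
  have h1 := (h (fun j => L (eu j))).2
  have h2 := (h' (fun j => L (eu j))).2
  have h3 : Measure.map (⇑L) (ρ : Measure (Fin n → ℝ)) = Measure.map (⇑L) (ρ' : Measure (Fin n → ℝ)) := by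
    show Measure.map (fun y => L y) _ = Measure.map (fun y => L y) _
    rw [e, h1, h2]
  exact congrArg (fun μ => charFun μ 1) h3

end Pool.Agent.Q30.SHL
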