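import Pool.Agent.Q30.SHL.Key

set_option autoImplicit false

/-! Laplace transforms in an open simplex with corner zero: the theorem. -/

namespace Pool.Agent.Q30.SHL

open MeasureTheory Filter Topology ProbabilityTheory
open Pool.Agent.Y753.SHL

variable {n : ℕ}

/-- the limit along an ultrafilter -/
theorem key {μ : ℝ → ProbabilityMeasure (Fin n → ℝ)} {m : Fin n → ℝ} {C : Fin n → Fin n → ℝ} {b : ℝ}
    (hb : 0 < b) (hC : ∀ i j, C i j = C j i)
    (hL : ∀ θ : Fin n → ℝ, (∀ j, 0 < θ j) → ∑ j, θ j < b → Lap μ m C θ)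
    (g : Ultrafilter ℝ) (hg : (g : Filter ℝ) ≤ atTop) :
    ∃ ρ : ProbabilityMeasure (Fin n → ℝ), Nor m C ρ ∧ Tendsto μ g (𝓝 ρ) := by
  classical
  set θ0 : Fin n → ℝ := fun _ => b / (2 * (n + 1)) with hθ0
  set r : ℝ := b / (4 * (n + 1)) with hr
  have hr0 : 0 < r := by positivity
  have hLs : ∀ η : Fin n → ℝ, (∀ j, |η j| < r) → Lap μ m C (θ0 + η) := fun η hη =>
    hL _ (sum_lt hb hη).1 (sum_lt hb hη).2
  have hL0 : Lap μ m C θ0 := by
    have := hLs 0 (fun j => by simpa using hr0)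
    rwa [add_zero] at this
  set L0 : ℝ := Real.exp (lf θ0 m + qf C θ0 / 2) with hL0d
  have hL0p : 0 < L0 := Real.exp_pos _
  obtain ⟨hi0, ht0⟩ := hL0
  -- the tilted measures
  have hex : ∀ T : ℝ, ∃ ν : ProbabilityMeasure (Fin n → ℝ), Integrable (fun y => Real.exp (lf θ0 y)) (μ T : Measure (Fin n → ℝ)) →
      (ν : Measure (Fin n → ℝ)) = (μ T : Measure (Fin n → ℝ)).tilted (lf θ0) := by
    intro T
    by_cases h : Integrable (fun y => Real.exp (lf θ0 y)) (μ T : Measure (Fin n → ℝ))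
    · exact ⟨⟨(μ T : Measure (Fin n → ℝ)).tilted (lf θ0), isProbabilityMeasure_tilted h⟩, fun _ => rfl⟩
    · exact ⟨μ T, fun h' => absurd h' h⟩
  choose ν hν using hex
  have hνe : ∀ᶠ T in (g : Filter ℝ), Integrable (fun y => Real.exp (lf θ0 y)) (μ T : Measure (Fin n → ℝ)) ∧
      (ν T : Measure (Fin n → ℝ)) = (μ T : Measure (Fin n → ℝ)).tilted (lf θ0) := by
    filter_upwards [hg hi0] with T hT
    exact ⟨hT, hν T hT⟩
  have htilt : ∀ᶠ T in (g : Filter ℝ), ∀ f : (Fin n → ℝ) → ℝ,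
      ∫ y, f y ∂(ν T : Measure (Fin n → ℝ)) =
        (∫ y, Real.exp (lf θ0 y) * f y ∂(μ T : Measure (Fin n → ℝ))) / ∫ y, Real.exp (lf θ0 y) ∂(μ T : Measure (Fin n → ℝ)) := by
    filter_upwards [hνe] with T hT f
    rw [hT.2, integral_tilted, ← integral_div]
    refine integral_congr_ae (Eventually.of_forall fun y => ?_)
    show (Real.exp (lf θ0 y) / _) • f y = _
    rw [smul_eq_mul]; ring
  have hball : ∀ η : Fin n → ℝ, (∀ j, |η j| < r) →
      (∀ᶠ T in (g : Filter ℝ), Integrable (ec η) (ν T : Measure (Fin n → ℝ))) ∧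
      Tendsto (fun T => ∫ y, ec η y ∂(ν T : Measure (Fin n → ℝ))) g
        (𝓝 (Real.exp (lf η (sh m C θ0) + qf C η / 2))) := by
    intro η hη
    obtain ⟨h1, h2⟩ := hLs η hη
    have e : ∀ y, Real.exp (lf (θ0 + η) y) = Real.exp (lf θ0 y) * ec η y := fun y => by
      rw [lf_add, Real.exp_add, ec_apply]
    simp_rw [e] at h1 h2
    refine ⟨?_, ?_⟩
    · filter_upwards [hνe, hg h1] with T a1 a2
      rw [a1.2, integrable_tilted_iff a1.1]
      exact a2
    · have h3 := (h2.div ht0 hL0p.ne').mono_left hg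
      rw [expo_shift m hC θ0 η, Real.exp_add, mul_div_cancel_left₀ _ hL0p.ne'] at h3
      refine h3.congr' ?_
      filter_upwards [htilt] with T a1
      rw [a1]
      rfl
  obtain ⟨νl, hνl, hN⟩ := ball_limit hr0 hball
  -- detilting
  have hneg := nor_lap hN (-θ0)
  have hLam : Real.exp (lf (-θ0) (sh m C θ0) + qf C (-θ0) / 2) = L0⁻¹ := by
    have e1 : qf C (-θ0) = qf C θ0 := by
      have := qf_smul C (-1) θ0
      rw [neg_one_smul] at this
      rw [this]; ring
    rw [lf_neg, e1, lf_sh, bl_self, hL0d, ← Real.exp_neg]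
    congr 1; ring
  have hgi : ∀ᶠ T in (g : Filter ℝ), Integrable (ec (-θ0)) (ν T : Measure (Fin n → ℝ)) := by
    filter_upwards [hνe] with T a1
    rw [a1.2, integrable_tilted_iff a1.1]
    refine (integrable_const (1:ℝ)).congr (Eventually.of_forall fun y => ?_)
    show (1:ℝ) = Real.exp (lf θ0 y) • ec (-θ0) y
    rw [ec_apply, lf_neg, smul_eq_mul, ← Real.exp_add]; simp
  have hgc : Tendsto (fun T => ∫ y, ec (-θ0) y ∂(ν T : Measure (Fin n → ℝ))) g
      (𝓝 (∫ y, ec (-θ0) y ∂(νl : Measure (Fin n → ℝ)))) := by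
    rw [hneg.2, hLam]
    have h3 := (ht0.mono_left hg).inv₀ hL0p.ne'
    refine h3.congr' ?_
    filter_upwards [htilt] with T a1
    rw [a1]
    have e : ∀ y, Real.exp (lf θ0 y) * ec (-θ0) y = 1 := fun y => by
      rw [ec_apply, lf_neg, ← Real.exp_add]; simp
    simp_rw [e]
    simp
  have hρp : IsProbabilityMeasure ((νl : Measure (Fin n → ℝ)).tilted (fun y => lf (-θ0) y)) :=
    isProbabilityMeasure_tilted (hneg.1 : Integrable (fun y => Real.exp (lf (-θ0) y)) (νl : Measure (Fin n → ℝ)))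
  set ρ : ProbabilityMeasure (Fin n → ℝ) := ⟨(νl : Measure (Fin n → ℝ)).tilted (fun y => lf (-θ0) y), hρp⟩ with hρ
  have hρc : (ρ : Measure (Fin n → ℝ)) = (νl : Measure (Fin n → ℝ)).tilted (fun y => lf (-θ0) y) := rfl
  have hρi : ∀ f : (Fin n → ℝ) → ℝ, ∫ y, f y ∂(ρ : Measure (Fin n → ℝ)) =
      L0 * ∫ y, ec (-θ0) y * f y ∂(νl : Measure (Fin n → ℝ)) := by
    intro f
    rw [hρc, integral_tilted]
    have e : ∫ y, Real.exp (lf (-θ0) y) ∂(νl : Measure (Fin n → ℝ)) = L0⁻¹ := by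
      rw [← hLam, ← hneg.2]; rfl
    rw [e, ← integral_const_mul]
    refine integral_congr_ae (Eventually.of_forall fun y => ?_)
    show (Real.exp (lf (-θ0) y) / L0⁻¹) • f y = L0 * (Real.exp (lf (-θ0) y) * f y)
    rw [smul_eq_mul, div_inv_eq_mul]; ring
  refine ⟨ρ, ?_, ?_⟩
  · intro c
    have hlm : Measurable (lf c) := (lf_continuous c).measurable
    have hpr : IsProbabilityMeasure ((ρ : Measure (Fin n → ℝ)).map (lf c)) :=
      Measure.isProbabilityMeasure_map hlm.aemeasurable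
    have hsh : ∀ (u : ℝ) (y : Fin n → ℝ), ec (-θ0) y * Real.exp (u * lf c y) = ec (u • c - θ0) y := by
      intro u y
      rw [ec_apply, ec_apply, ← Real.exp_add, lf_neg, lf_sub, lf_smul]
      congr 1; ring
    refine gauss_unique (ν := (ρ : Measure (Fin n → ℝ)).map (lf c)) one_pos (fun u _ => ?_) (fun u _ => ?_)
    · rw [integrable_map_measure (by fun_prop) hlm.aemeasurable, hρc,
        integrable_tilted_iff (hneg.1 : Integrable (fun y => Real.exp (lf (-θ0) y)) (νl : Measure (Fin n → ℝ)))]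
      refine (nor_lap hN (u • c - θ0)).1.congr (Eventually.of_forall fun y => ?_)
      show ec (u • c - θ0) y = Real.exp (lf (-θ0) y) • Real.exp (u * lf c y)
      rw [← hsh, smul_eq_mul]; rfl
    · rw [integral_map hlm.aemeasurable (by fun_prop), hρi]
      have e1 : ∫ y, ec (-θ0) y * Real.exp (u * lf c y) ∂(νl : Measure (Fin n → ℝ)) =
          Real.exp (lf (u • c - θ0) (sh m C θ0) + qf C (u • c - θ0) / 2) := by
        rw [← (nor_lap hN (u • c - θ0)).2]
        exact integral_congr_ae (Eventually.of_forall fun y => hsh u y)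
      rw [e1, hL0d, ← Real.exp_add]
      congr 1
      have e2 := expo_shift m hC θ0 (u • c - θ0)
      rw [add_sub_cancel] at e2
      rw [← e2, lf_smul, qf_smul]
  · rw [ProbabilityMeasure.tendsto_iff_forall_integral_tendsto]
    intro F
    rw [hρi]
    have h1 := dom_conv (g := ec (-θ0)) (f := ec (-θ0) * ⟨F, F.continuous⟩) (C := ‖F‖) hνl
      (fun y => (Real.exp_pos _).le) hgi hneg.1 hgc (norm_nonneg F) (fun y => by
        show |ec (-θ0) y * F y| ≤ ‖F‖ * ec (-θ0) y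
        rw [abs_mul, ec_apply, abs_of_pos (Real.exp_pos _), mul_comm]
        exact mul_le_mul_of_nonneg_right (by rw [← Real.norm_eq_abs]; exact F.norm_coe_le_norm y) (Real.exp_pos _).le)
    have h2 := (ht0.mono_left hg).mul h1
    refine h2.congr' ?_
    filter_upwards [htilt, hνe] with T a1 a2
    have hp : 0 < ∫ y, Real.exp (lf θ0 y) ∂(μ T : Measure (Fin n → ℝ)) := integral_exp_pos a2.1
    rw [a1]
    have e : ∀ y, Real.exp (lf θ0 y) * (ec (-θ0) * (⟨F, F.continuous⟩ : C(Fin n → ℝ, ℝ))) y = F y := fun y => by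
      show Real.exp (lf θ0 y) * (ec (-θ0) y * F y) = F y
      rw [ec_apply, lf_neg, ← mul_assoc, ← Real.exp_add]; simp
    simp_rw [e]
    rw [mul_div_cancel₀ _ hp.ne']

/-- job SHL-LAND -/
theorem land : S_LAND := by
  intro n μ m C b hb hC hL
  obtain ⟨ρ, hρ, -⟩ := key hb hC hL (Ultrafilter.of atTop) (Ultrafilter.of_le _)
  refine ⟨ρ, hρ, ?_⟩
  rw [tendsto_iff_ultrafilter]
  intro g hg
  obtain ⟨ρ', h1, h2⟩ := key hb hC hL g hg
  rwa [nor_unique hρ h1]

end Pool.Agent.Q30.SHL
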