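import Mathlib

set_option autoImplicit false

/-! One dimensional facts: normal laws are determined by their Laplace transforms near zero. -/

namespace Pool.Agent.Q30.SHL

open MeasureTheory Filter Topology ProbabilityTheory

theorem gauss_nonneg {ν : Measure ℝ} [IsProbabilityMeasure ν] {a q u : ℝ} (hu : u ≠ 0)
    (hi1 : Integrable (fun x => Real.exp (u * x)) ν) (hi2 : Integrable (fun x => Real.exp (-u * x)) ν)
    (h1 : ∫ x, Real.exp (u * x) ∂ν = Real.exp (u * a + u ^ 2 * q / 2))
    (h2 : ∫ x, Real.exp (-u * x) ∂ν = Real.exp (-u * a + u ^ 2 * q / 2)) : 0 ≤ q := by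
  have h3 : ∫ x, (Real.exp (-(u * a)) * Real.exp (u * x) + Real.exp (u * a) * Real.exp (-u * x)) ∂ν =
      2 * Real.exp (u ^ 2 * q / 2) := by
    rw [integral_add (hi1.const_mul _) (hi2.const_mul _), integral_const_mul, integral_const_mul, h1, h2,
      ← Real.exp_add, ← Real.exp_add]
    rw [show -(u * a) + (u * a + u ^ 2 * q / 2) = u ^ 2 * q / 2 by ring,
      show u * a + (-u * a + u ^ 2 * q / 2) = u ^ 2 * q / 2 by ring]
    ring
  have h4 : (2 : ℝ) ≤ 2 * Real.exp (u ^ 2 * q / 2) := by
    rw [← h3]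
    calc (2 : ℝ) = ∫ _x : ℝ, (2 : ℝ) ∂ν := by simp
      _ ≤ _ := by
        refine integral_mono (integrable_const _) ((hi1.const_mul _).add (hi2.const_mul _)) fun x => ?_
        show (2 : ℝ) ≤ Real.exp (-(u * a)) * Real.exp (u * x) + Real.exp (u * a) * Real.exp (-u * x)
        rw [← Real.exp_add, ← Real.exp_add]
        have e1 := Real.add_one_le_exp (-(u * a) + u * x)
        have e2 := Real.add_one_le_exp (u * a + -u * x)
        linarith
  have h5 : 0 ≤ u ^ 2 * q / 2 := by
    by_contra hneg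
    push Not at hneg
    have h7 := Real.exp_lt_exp.2 hneg
    rw [Real.exp_zero] at h7
    linarith
  have h6 : 0 < u ^ 2 := by positivity
  by_contra hneg
  push Not at hneg
  nlinarith [mul_neg_of_pos_of_neg h6 hneg]

/-- a law with the Laplace transform of a normal law near zero is this normal law -/
theorem gauss_unique {ν : Measure ℝ} [IsProbabilityMeasure ν] {a q r : ℝ} (hr : 0 < r)
    (hi : ∀ u : ℝ, |u| < r → Integrable (fun x => Real.exp (u * x)) ν)
    (h : ∀ u : ℝ, |u| < r → ∫ x, Real.exp (u * x) ∂ν = Real.exp (u * a + u ^ 2 * q / 2)) :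
    0 ≤ q ∧ ν = gaussianReal a q.toNNReal := by
  have hr2 : |r / 2| < r := by rw [abs_of_pos (by linarith)]; linarith
  have hr2' : |-(r / 2)| < r := by rw [abs_neg]; exact hr2
  have hq : 0 ≤ q := by
    refine gauss_nonneg (ν := ν) (a := a) (u := r / 2) (by linarith) (hi _ hr2) (hi _ hr2') (h _ hr2) ?_
    rw [h _ hr2']
    congr 1
    ring
  refine ⟨hq, ?_⟩
  have hint : Set.Ioo (-r) r ⊆ interior (integrableExpSet id ν) := by
    refine interior_maximal (fun u hu => ?_) isOpen_Ioo
    exact hi u (abs_lt.2 hu)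
  have hf : AnalyticOnNhd ℂ (complexMGF id ν) {z : ℂ | |z.re| < r} := by
    refine analyticOnNhd_complexMGF.mono fun z hz => ?_
    exact hint (abs_lt.1 hz)
  have hg : AnalyticOnNhd ℂ (fun z : ℂ => Complex.exp (z * a + z ^ 2 * q / 2)) {z : ℂ | |z.re| < r} := by
    intro z _
    refine AnalyticAt.cexp ?_
    fun_prop
  have hconv : IsPreconnected {z : ℂ | |z.re| < r} := by
    have h1 : Convex ℝ {z : ℂ | |z.re| < r} := by
      have : {z : ℂ | |z.re| < r} = Complex.reLm ⁻¹' Set.Ioo (-r) r := by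
        ext z
        simp [abs_lt]
      rw [this]
      exact (convex_Ioo _ _).linear_preimage _
    exact h1.isPreconnected
  have heq : Set.EqOn (complexMGF id ν) (fun z : ℂ => Complex.exp (z * a + z ^ 2 * q / 2))
      {z : ℂ | |z.re| < r} := by
    refine AnalyticOnNhd.eqOn_of_preconnected_of_frequently_eq hf hg hconv (z₀ := 0) (by simpa using hr) ?_
    have h1 : ∀ᶠ x : ℝ in 𝓝[≠] 0, complexMGF id ν (x : ℂ) = Complex.exp ((x : ℂ) * a + (x : ℂ) ^ 2 * q / 2) := by
      have h2 : ∀ᶠ x : ℝ in 𝓝[≠] 0, |x| < r := by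
        refine mem_nhdsWithin_of_mem_nhds ?_
        have : Metric.ball (0 : ℝ) r ∈ 𝓝 (0 : ℝ) := Metric.ball_mem_nhds _ hr
        filter_upwards [this] with x hx
        simpa [Real.dist_eq] using hx
      filter_upwards [h2] with x hx
      rw [complexMGF_ofReal]
      have h3 := h x hx
      unfold mgf
      simp only [id]
      rw [h3]
      push_cast
      rfl
    have h3 : Tendsto (fun x : ℝ => (x : ℂ)) (𝓝[≠] 0) (𝓝[≠] 0) := by
      refine tendsto_nhdsWithin_iff.2 ⟨?_, ?_⟩
      · have : Tendsto (fun x : ℝ => (x : ℂ)) (𝓝 0) (𝓝 ((0 : ℝ) : ℂ)) := Complex.continuous_ofReal.tendsto 0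
        rw [Complex.ofReal_zero] at this
        exact this.mono_left nhdsWithin_le_nhds
      · filter_upwards [self_mem_nhdsWithin] with x hx
        simpa using hx
    exact h3.frequently h1.frequently
  refine Measure.ext_of_charFun ?_
  ext t
  rw [← complexMGF_id_mul_I, ← complexMGF_id_mul_I, complexMGF_id_gaussianReal]
  have h1 := heq (show (t * Complex.I : ℂ) ∈ {z : ℂ | |z.re| < r} by simpa using hr)
  rw [h1]
  show Complex.exp _ = _
  congr 1
  have h2 : (((q.toNNReal : ℝ)) : ℂ) = (q : ℂ) := by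
    rw [Real.coe_toNNReal _ hq]
  rw [h2]
  ring

end Pool.Agent.Q30.SHL
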